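import Pool.Agent.H98.Cubic.Targets

/-!
Module `Count` of the cubic moment project (`MP_56c76e_nt`): divisor counting.
-/

set_option autoImplicit false

open Finset

namespace Pool.Agent.H2.Cubic

open Pool.Agent.H98.Cubic

lemma fiber_card (ρ : ℝ) (hρ : 0 < ρ) (S : Finset ℕ) (m : ℕ) :
    (S.filter (fun n : ℕ => ⌊|(n : ℝ) - ρ|⌋₊ = m)).card ≤ 2 := by
  have hsub : S.filter (fun n : ℕ => ⌊|(n : ℝ) - ρ|⌋₊ = m) ⊆
      ({⌈ρ + m⌉₊, ⌊ρ - m⌋₊} : Finset ℕ) := by
    intro n hn
    rw [mem_filter] at hn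
    have h := hn.2
    have h0 : 0 ≤ |(n : ℝ) - ρ| := abs_nonneg _
    rw [Nat.floor_eq_iff h0] at h
    rw [mem_insert, mem_singleton]
    rcases le_or_gt ρ n with h1 | h1
    · left
      rw [abs_of_nonneg (by linarith)] at h
      symm
      have hp : 1 ≤ n := by
        have : (0 : ℝ) < n := by linarith
        exact_mod_cast this
      rw [Nat.ceil_eq_iff (by omega)]
      have : ((n - 1 : ℕ) : ℝ) = n - 1 := by
        rw [Nat.cast_sub hp]; simp
      rw [this]
      constructor <;> linarith [h.1, h.2]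
    · right
      rw [abs_of_neg (by linarith)] at h
      symm
      have h3 : 0 ≤ ρ - m := by
        have : (0 : ℝ) ≤ n := Nat.cast_nonneg n
        linarith [h.1]
      rw [Nat.floor_eq_iff h3]
      constructor <;> linarith [h.1, h.2]
  exact (card_le_card hsub).trans card_le_two

lemma sum_inv_le (G : ℕ) : ∑ m ∈ Icc 1 G, (1 : ℝ) / m ≤ 1 + Real.log G := by
  have h := harmonic_le_one_add_log G
  rw [harmonic_eq_sum_Icc] at h
  push_cast at h
  simpa [one_div] using h

/-- the sum over integers `n` near `ρ`. -/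
lemma sum_near (ρ L W : ℝ) (G : ℕ) (hρ : 0 < ρ) (hL : 1 ≤ L) (hW : 0 < W)
    (S : Finset ℕ) (hS : ∀ n ∈ S, |(n : ℝ) - ρ| ≤ G) :
    ∑ n ∈ S, L / (1 + L * |(n : ℝ) - ρ| / W) ≤ 2 * (L + W * (1 + Real.log G)) := by
  classical
  have hmaps : ∀ n ∈ S, ⌊|(n : ℝ) - ρ|⌋₊ ∈ range (G + 1) := by
    intro n hn
    rw [mem_range, Nat.lt_succ_iff]
    exact Nat.floor_le_of_le (hS n hn)
  rw [← sum_fiberwise_of_maps_to hmaps]
  have hterm : ∀ m ∈ range (G + 1),
      ∑ n ∈ S.filter (fun n : ℕ => ⌊|(n : ℝ) - ρ|⌋₊ = m), L / (1 + L * |(n : ℝ) - ρ| / W)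
        ≤ 2 * (if m = 0 then L else W * (1 / m)) := by
    intro m _
    have hb : ∀ n ∈ S.filter (fun n : ℕ => ⌊|(n : ℝ) - ρ|⌋₊ = m),
        L / (1 + L * |(n : ℝ) - ρ| / W) ≤ (if m = 0 then L else W * (1 / m)) := by
      intro n hn
      rw [mem_filter] at hn
      have h := hn.2
      have h0 : 0 ≤ |(n : ℝ) - ρ| := abs_nonneg _
      rw [Nat.floor_eq_iff h0] at h
      have hden : 0 ≤ L * |(n : ℝ) - ρ| / W := by positivity
      split_ifs with hm
      · apply div_le_self (by linarith)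
        linarith
      · have hm1 : (1 : ℝ) ≤ m := by exact_mod_cast Nat.one_le_iff_ne_zero.mpr hm
        rw [div_le_iff₀ (by linarith)]
        have h5 : W * (1 / (m : ℝ)) * (L * |(n : ℝ) - ρ| / W) = L * (|(n : ℝ) - ρ| / m) := by
          field_simp
        have h6 : 1 ≤ |(n : ℝ) - ρ| / m := by
          rw [le_div_iff₀ (by linarith)]; linarith [h.1]
        have h7 : 0 ≤ W * (1 / (m : ℝ)) := by positivity
        nlinarith [mul_le_mul_of_nonneg_left h6 (by linarith : (0 : ℝ) ≤ L)]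
    have hnn : (0 : ℝ) ≤ (if m = 0 then L else W * (1 / m)) := by
      split_ifs
      · linarith
      · positivity
    calc _ ≤ ∑ n ∈ S.filter (fun n : ℕ => ⌊|(n : ℝ) - ρ|⌋₊ = m),
          (if m = 0 then L else W * (1 / (m : ℝ))) := sum_le_sum hb
      _ = (S.filter (fun n : ℕ => ⌊|(n : ℝ) - ρ|⌋₊ = m)).card *
          (if m = 0 then L else W * (1 / (m : ℝ))) := by
            rw [sum_const, nsmul_eq_mul]
      _ ≤ 2 * (if m = 0 then L else W * (1 / (m : ℝ))) := by
            apply mul_le_mul_of_nonneg_right _ hnn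
            exact_mod_cast fiber_card ρ hρ S m
  refine (sum_le_sum hterm).trans ?_
  rw [← mul_sum]
  apply mul_le_mul_of_nonneg_left _ (by norm_num)
  rw [sum_range_succ']
  simp only [if_true, Nat.add_eq_zero_iff, one_ne_zero, and_false, if_false]
  rw [add_comm]
  apply add_le_add_right
  rw [← mul_sum]
  apply mul_le_mul_of_nonneg_left _ hW.le
  refine le_trans (le_of_eq ?_) (sum_inv_le G)
  rw [range_eq_Ico, sum_Ico_add' (fun m : ℕ => (1 : ℝ) / (m : ℝ)) 0 G 1]
  rfl

theorem count : TCount := by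
  classical
  refine ⟨2, by norm_num, ?_⟩
  intro ρ L V D G hρ hL hV hG hD
  have hG1 : (1 : ℝ) ≤ G := by exact_mod_cast hG
  set F : Finset ℕ := (Icc 1 G).filter (fun g : ℕ => (1 : ℝ) / 2 ≤ ρ / g) with hF
  set S : Finset ℕ := (Icc 1 ⌊ρ + G⌋₊).filter (fun n : ℕ => |(n : ℝ) - ρ| ≤ G) with hSdef
  set f : ℕ → ℝ := fun n => L / (1 + L * |(n : ℝ) - ρ| / (G * V)) with hf
  have hfn : ∀ n, 0 ≤ f n := by
    intro n
    have : 0 ≤ L * |(n : ℝ) - ρ| / (G * V) := by positivity
    simp only [hf]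
    apply div_nonneg (by linarith)
    linarith
  have hD1 : 1 ≤ D := by
    have := hD 1 le_rfl (by push_cast; linarith)
    simpa using this
  -- the map
  set φ : ℕ → ℕ := fun g => g * (round (ρ / g)).toNat with hφ
  have key : ∀ g ∈ F, 1 ≤ g ∧ (φ g : ℝ) = g * round (ρ / g) ∧ 1 ≤ φ g ∧
      |(φ g : ℝ) - ρ| = g * nd (ρ / g) ∧ |(φ g : ℝ) - ρ| ≤ G := by
    intro g hg
    rw [hF, mem_filter, mem_Icc] at hg
    obtain ⟨⟨hg1, hgG⟩, hg2⟩ := hg
    have hg0 : (0 : ℝ) < g := by exact_mod_cast hg1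
    have hr : 1 ≤ round (ρ / g) := by
      rw [round_eq, Int.le_floor]
      push_cast; linarith
    have hcast : (((round (ρ / g)).toNat : ℕ) : ℝ) = (round (ρ / (g : ℝ)) : ℝ) := by
      have h1 : (((round (ρ / (g : ℝ))).toNat : ℕ) : ℤ) = round (ρ / (g : ℝ)) :=
        Int.toNat_of_nonneg (by omega)
      exact_mod_cast congrArg (fun z : ℤ => (z : ℝ)) h1
    have h1 : (φ g : ℝ) = g * round (ρ / g) := by
      simp only [hφ]
      push_cast
      rw [hcast]
    have h2 : |(φ g : ℝ) - ρ| = g * nd (ρ / g) := by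
      rw [h1, nd, ← abs_of_pos hg0, ← abs_mul, abs_of_pos hg0, ← abs_neg]
      congr 1
      field_simp
      ring
    refine ⟨hg1, h1, ?_, h2, ?_⟩
    · have h3 : (1 : ℝ) ≤ φ g := by
        rw [h1]
        have h4 : (1 : ℝ) ≤ round (ρ / (g : ℝ)) := by exact_mod_cast hr
        have h5 : (1 : ℝ) ≤ g := by exact_mod_cast hg1
        nlinarith
      exact_mod_cast h3
    · rw [h2]
      have h3 : nd (ρ / g) ≤ 1 / 2 := abs_sub_round _
      have h4 : (g : ℝ) ≤ G := by exact_mod_cast hgG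
      have h5 : 0 ≤ nd (ρ / g) := abs_nonneg _
      nlinarith
  have hmaps : ∀ g ∈ F, φ g ∈ S := by
    intro g hg
    obtain ⟨h1, h2, h3, h4, h5⟩ := key g hg
    rw [hSdef, mem_filter, mem_Icc]
    refine ⟨⟨h3, ?_⟩, h5⟩
    apply Nat.le_floor
    have := abs_le.mp h5
    linarith [this.2]
  have hterm : ∀ g ∈ F, L / (1 + L * nd (ρ / g) / V) ≤ f (φ g) := by
    intro g hg
    obtain ⟨h1, h2, h3, h4, h5⟩ := key g hg
    have hgG : (g : ℝ) ≤ G := by
      rw [hF, mem_filter, mem_Icc] at hg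
      exact_mod_cast hg.1.2
    have hg0 : (0 : ℝ) < g := by exact_mod_cast h1
    have h5 : 0 ≤ nd (ρ / g) := abs_nonneg _
    simp only [hf]
    apply div_le_div_of_nonneg_left (by linarith)
    · have : 0 ≤ L * |(φ g : ℝ) - ρ| / (G * V) := by positivity
      linarith
    · have h6 : L * |(φ g : ℝ) - ρ| / (G * V) ≤ L * nd (ρ / g) / V := by
        rw [h4, div_le_div_iff₀ (by positivity) (by positivity)]
        have h7 : 0 ≤ L * nd (ρ / g) * V := by positivity
        nlinarith
      linarith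
  calc ∑ g ∈ F, L / (1 + L * nd (ρ / g) / V) ≤ ∑ g ∈ F, f (φ g) := sum_le_sum hterm
    _ = ∑ n ∈ S, ∑ g ∈ F.filter (fun g => φ g = n), f (φ g) :=
        (sum_fiberwise_of_maps_to hmaps _).symm
    _ ≤ ∑ n ∈ S, D * f n := by
        apply sum_le_sum
        intro n hn
        have hn' := hn
        rw [hSdef, mem_filter, mem_Icc] at hn'
        obtain ⟨⟨hn1, hn2⟩, hn3⟩ := hn'
        have hcard : ((F.filter (fun g => φ g = n)).card : ℝ) ≤ D := by
          have hle : (n : ℝ) ≤ ρ + G :=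
            (Nat.cast_le.mpr hn2).trans (Nat.floor_le (by positivity))
          refine le_trans ?_ (hD n hn1 hle)
          have : F.filter (fun g => φ g = n) ⊆ n.divisors := by
            intro g hg
            rw [mem_filter] at hg
            rw [Nat.mem_divisors]
            refine ⟨?_, by omega⟩
            rw [← hg.2]
            exact Dvd.intro _ rfl
          exact_mod_cast card_le_card this
        have : ∑ g ∈ F.filter (fun g => φ g = n), f (φ g) =
            (F.filter (fun g => φ g = n)).card * f n := by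
          rw [← nsmul_eq_mul, ← sum_const]
          apply sum_congr rfl
          intro g hg
          rw [mem_filter] at hg
          rw [hg.2]
        rw [this]
        exact mul_le_mul_of_nonneg_right hcard (hfn n)
    _ = D * ∑ n ∈ S, f n := by rw [mul_sum]
    _ ≤ D * (2 * (L + (G * V) * (1 + Real.log G))) := by
        apply mul_le_mul_of_nonneg_left _ (by linarith)
        apply sum_near ρ L (G * V) G hρ hL (by positivity)
        intro n hn
        rw [hSdef, mem_filter] at hn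
        exact hn.2
    _ = 2 * D * (L + G * V * (1 + Real.log G)) := by ring

end Pool.Agent.H2.Cubic
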